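import Pool.Agent.helper70.LE.SpecN
import Pool.Agent.helper59.FI.Base

/-!
# Project LE, row OQD: the form does not change between a regular normal subgroup and the defect group
-/

set_option autoImplicit false

namespace Pool.Agent.LE

open Pool.Agent.helper58.DC Pool.Agent.DI Pool.Agent.GR Pool.Agent.OB Pool.Agent.DR Pool.Agent.FI Pool.Agent.FI3 Pool.Agent.FI4

section

variable {G : Type} [Group G]

theorem OQD_mem {H : Subgroup G} {g : G} (hg : g ∈ nz H) {q : G} (hq : q ∈ H) : g * q * g⁻¹ ∈ H :=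
  (Subgroup.mem_normalizer_iff.1 hg q).1 hq

/-- conjugation by `g` -/
def OQD_e (H : Subgroup G) (g : G) (hg : g ∈ nz H) : H ≃* H where
  toFun q := ⟨g * q * g⁻¹, OQD_mem hg q.2⟩
  invFun q := ⟨g⁻¹ * q * g⁻¹⁻¹, OQD_mem ((nz H).inv_mem hg) q.2⟩
  left_inv q := by
    apply Subtype.ext
    show g⁻¹ * (g * (q : G) * g⁻¹) * g⁻¹⁻¹ = q
    group
  right_inv q := by
    apply Subtype.ext
    show g * (g⁻¹ * (q : G) * g⁻¹⁻¹) * g⁻¹ = q
    group
  map_mul' a b := by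
    apply Subtype.ext
    show g * ((a : G) * b) * g⁻¹ = g * a * g⁻¹ * (g * b * g⁻¹)
    group

theorem OQD_map (Q Q' : Subgroup G) (g : G) (hg : g ∈ nz Q) (hg' : g ∈ nz Q') :
    (Q.subgroupOf Q').map (OQD_e Q' g hg' : Q' →* Q') = Q.subgroupOf Q' := by
  ext x
  rw [Subgroup.mem_map]
  constructor
  · rintro ⟨q, hq, rfl⟩
    rw [Subgroup.mem_subgroupOf] at hq ⊢
    exact OQD_mem hg hq
  · intro hx
    refine ⟨(OQD_e Q' g hg').symm x, ?_, (OQD_e Q' g hg').apply_symm_apply x⟩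
    rw [Subgroup.mem_subgroupOf] at hx ⊢
    exact OQD_mem ((nz Q).inv_mem hg) hx

/-- the action on `Q' / Q` -/
noncomputable def OQD_phi (Q Q' : Subgroup G) [(Q.subgroupOf Q').Normal] :
    (nz Q ⊓ nz Q' : Subgroup G) →* MulAut (Q' ⧸ Q.subgroupOf Q') :=
  MonoidHom.mk' (fun g => QuotientGroup.congr (Q.subgroupOf Q') (Q.subgroupOf Q') (OQD_e Q' g g.2.2)
    (OQD_map Q Q' g g.2.1 g.2.2)) (by
      intro g h
      ext x
      induction x using QuotientGroup.induction_on with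
      | H q =>
        show QuotientGroup.mk (OQD_e Q' ((g * h : (nz Q ⊓ nz Q' : Subgroup G)) : G) (g * h).2.2 q) =
          QuotientGroup.mk (OQD_e Q' g g.2.2 (OQD_e Q' h h.2.2 q))
        congr 1
        apply Subtype.ext
        show ((g : G) * h) * q * ((g : G) * h)⁻¹ = g * (h * q * (h : G)⁻¹) * (g : G)⁻¹
        group)

theorem OQD_phi_mk (Q Q' : Subgroup G) [(Q.subgroupOf Q').Normal] (g : (nz Q ⊓ nz Q' : Subgroup G)) (q : Q') :
    OQD_phi Q Q' g (QuotientGroup.mk q) = QuotientGroup.mk (OQD_e Q' g g.2.2 q) := rfl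

theorem OQD_nor (Q Q' : Subgroup G) (hcom : ∀ c ∈ Q', ∀ d ∈ Q', c * d = d * c) : (Q.subgroupOf Q').Normal := by
  refine ⟨fun n hn g => ?_⟩
  rw [Subgroup.mem_subgroupOf] at hn ⊢
  have h : ((g * n * g⁻¹ : Q') : G) = n := by
    show (g : G) * n * (g : G)⁻¹ = n
    rw [hcom g g.2 n n.2]
    group
  rw [h]
  exact hn

/-- `Q' / Q` is commutative -/
@[reducible] def OQD_cg (Q Q' : Subgroup G) (hn : (Q.subgroupOf Q').Normal) (hcom : ∀ c ∈ Q', ∀ d ∈ Q', c * d = d * c) :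
    CommGroup (Q' ⧸ Q.subgroupOf Q') :=
  { (inferInstance : Group (Q' ⧸ Q.subgroupOf Q')) with
    mul_comm := by
      intro a b
      induction a using QuotientGroup.induction_on with
      | H a =>
        induction b using QuotientGroup.induction_on with
        | H b =>
          rw [← QuotientGroup.mk_mul, ← QuotientGroup.mk_mul]
          congr 1
          exact Subtype.ext (hcom a a.2 b b.2) }

theorem OQD_triv (Q Q' : Subgroup G) [(Q.subgroupOf Q').Normal] (hcom : ∀ c ∈ Q', ∀ d ∈ Q', c * d = d * c)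
    (g : (nz Q ⊓ nz Q' : Subgroup G)) (hg : OQD_phi Q Q' g = 1) :
    ∀ q ∈ Q', (g : G) * q * (g : G)⁻¹ * q⁻¹ ∈ Q := by
  intro q hq
  have h1 : OQD_phi Q Q' g (QuotientGroup.mk (⟨q, hq⟩ : Q')) = QuotientGroup.mk (⟨q, hq⟩ : Q') := by
    rw [hg]
    rfl
  rw [OQD_phi_mk, QuotientGroup.eq, Subgroup.mem_subgroupOf] at h1
  have h2 : ((g : G) * q * (g : G)⁻¹)⁻¹ * q ∈ Q := h1
  have h3 := Q.inv_mem h2
  have h4 : (((g : G) * q * (g : G)⁻¹)⁻¹ * q)⁻¹ = q⁻¹ * ((g : G) * q * (g : G)⁻¹) := by group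
  rw [h4] at h3
  rwa [hcom _ (OQD_mem g.2.2 hq) _ (Q'.inv_mem hq)]

theorem OQD_step (hCYV : CYV_stmt) [Finite G] (Q Q' : Subgroup G) (hQ : Q ≤ Q') (hne : Q ≠ Q')
    (hcom : ∀ c ∈ Q', ∀ d ∈ Q', c * d = d * c) (a y : G) (ha : a ∈ nz Q) (ha' : a ∈ nz Q') (hy : y ∈ nz Q)
    (hy' : y ∈ nz Q') (hay : ∀ q ∈ Q', (a * y) * q * (a * y)⁻¹ = (y * a) * q * (y * a)⁻¹)
    (hmin : ∀ Q'' : Subgroup G, Q ≤ Q'' → Q'' ≤ Q' → a ∈ nz Q'' → y ∈ nz Q'' → Q'' = Q ∨ Q'' = Q') :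
    ∃ s t i j : ℤ,
      (∀ q ∈ Q', (((a ^ s * y ^ t) ^ i)⁻¹ * a) * q * (((a ^ s * y ^ t) ^ i)⁻¹ * a)⁻¹ * q⁻¹ ∈ Q) ∧
      (∀ q ∈ Q', (((a ^ s * y ^ t) ^ j)⁻¹ * y) * q * (((a ^ s * y ^ t) ^ j)⁻¹ * y)⁻¹ * q⁻¹ ∈ Q) := by
  have hn : (Q.subgroupOf Q').Normal := OQD_nor Q Q' hcom
  let _ : CommGroup (Q' ⧸ Q.subgroupOf Q') := OQD_cg Q Q' hn hcom
  let A : (nz Q ⊓ nz Q' : Subgroup G) := ⟨a, ha, ha'⟩
  let Y : (nz Q ⊓ nz Q' : Subgroup G) := ⟨y, hy, hy'⟩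
  have hnt : Nontrivial (Q' ⧸ Q.subgroupOf Q') := by
    rw [QuotientGroup.nontrivial_iff]
    intro h
    rw [Subgroup.subgroupOf_eq_top] at h
    exact hne (le_antisymm hQ h)
  have hc : Commute (OQD_phi Q Q' A) (OQD_phi Q Q' Y) := by
    show OQD_phi Q Q' A * OQD_phi Q Q' Y = OQD_phi Q Q' Y * OQD_phi Q Q' A
    rw [← map_mul, ← map_mul]
    ext x
    induction x using QuotientGroup.induction_on with
    | H q =>
      rw [OQD_phi_mk, OQD_phi_mk]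
      congr 1
      exact Subtype.ext (hay q q.2)
  have hW : ∀ W : Subgroup (Q' ⧸ Q.subgroupOf Q'), (∀ w ∈ W, OQD_phi Q Q' A w ∈ W) →
      (∀ w ∈ W, OQD_phi Q Q' Y w ∈ W) → W = ⊥ ∨ W = ⊤ := by
    intro W hA hY
    set Q'' : Subgroup G := (W.comap (QuotientGroup.mk' (Q.subgroupOf Q'))).map Q'.subtype with hQ''
    have hmem : ∀ q : Q', (q : G) ∈ Q'' ↔ (QuotientGroup.mk q : Q' ⧸ Q.subgroupOf Q') ∈ W := by
      intro q
      rw [hQ'', Subgroup.mem_map]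
      constructor
      · rintro ⟨q', hq', e⟩
        have e' : q' = q := Subtype.ext e
        rw [← e']
        exact hq'
      · intro h
        exact ⟨q, h, rfl⟩
    have h2 : Q'' ≤ Q' := Subgroup.map_subtype_le _
    have h1 : Q ≤ Q'' := by
      intro q hq
      rw [hmem ⟨q, hQ hq⟩]
      have : (QuotientGroup.mk (⟨q, hQ hq⟩ : Q') : Q' ⧸ Q.subgroupOf Q') = 1 :=
        (QuotientGroup.eq_one_iff _).2 (Subgroup.mem_subgroupOf.2 hq)
      rw [this]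
      exact W.one_mem
    have hnz : ∀ B : (nz Q ⊓ nz Q' : Subgroup G), (∀ w ∈ W, OQD_phi Q Q' B w ∈ W) → (B : G) ∈ nz Q'' := by
      intro B hB
      apply Subgroup.mem_normalizer_fintype
      intro n hn'
      have hn2 : n ∈ Q' := h2 hn'
      have h3 := hB _ ((hmem ⟨n, hn2⟩).1 hn')
      rw [OQD_phi_mk] at h3
      exact (hmem _).2 h3
    rcases hmin Q'' h1 h2 (hnz A hA) (hnz Y hY) with h | h
    · left
      rw [eq_bot_iff]
      intro w hw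
      induction w using QuotientGroup.induction_on with
      | H q =>
        have h3 := (hmem q).2 hw
        rw [h] at h3
        rw [Subgroup.mem_bot]
        exact (QuotientGroup.eq_one_iff _).2 (Subgroup.mem_subgroupOf.2 h3)
    · right
      rw [eq_top_iff]
      intro w _
      induction w using QuotientGroup.induction_on with
      | H q =>
        rw [← hmem q, h]
        exact q.2
  obtain ⟨s, t, i, j, h1, h2⟩ := hCYV (Q' ⧸ Q.subgroupOf Q') (OQD_phi Q Q' A) (OQD_phi Q Q' Y) hc hW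
  refine ⟨s, t, i, j, ?_, ?_⟩
  · apply OQD_triv Q Q' hcom (((A ^ s * Y ^ t) ^ i)⁻¹ * A)
    rw [map_mul, map_inv, map_zpow, map_mul, map_zpow, map_zpow]
    exact inv_mul_eq_one.2 h1
  · apply OQD_triv Q Q' hcom (((A ^ s * Y ^ t) ^ j)⁻¹ * Y)
    rw [map_mul, map_inv, map_zpow, map_mul, map_zpow, map_zpow]
    exact inv_mul_eq_one.2 h2

/-- commutators in `cz D` -/
theorem OQD_com {D : Subgroup G} (g h : (nz D : Subgroup G)) :
    (g : G) * h * (g : G)⁻¹ * (h : G)⁻¹ ∈ cz D ↔ Commute (D.normalizerMonoidHom g) (D.normalizerMonoidHom h) := by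
  have h1 : (g : G) * h * (g : G)⁻¹ * (h : G)⁻¹ ∈ cz D ↔ g * h * g⁻¹ * h⁻¹ ∈ D.normalizerMonoidHom.ker := by
    rw [Subgroup.normalizerMonoidHom_ker, Subgroup.mem_subgroupOf]
    rfl
  rw [h1, MonoidHom.mem_ker, map_mul, map_mul, map_mul, map_inv, map_inv, mul_inv_eq_one, mul_inv_eq_iff_eq_mul]
  rfl

end

theorem OQD_main (hOQS : OQS_stmt) (hCYV : CYV_stmt) (p : ℕ) (M : Ideal (integralClosure ℤ ℂ)) (hS : Setup p M)
    (hp : p ≠ 2) (G : Type) [Group G] [Finite G] (D : Subgroup G) (x : G) (θ χ : G → ℂ) (hL : LoA p M D x θ χ)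
    (a : G) (ha : a ∈ TT M D θ) (y : G) (hy : y ∈ TT M D θ) (hay : a * y * a⁻¹ * y⁻¹ ∈ cz D) :
    ∀ (n : ℕ) (Q : Subgroup G), Nat.card D - Nat.card Q ≤ n → Q ≤ D → RP M D θ Q → a ∈ nz Q → y ∈ nz Q →
      om p (cz Q) (eBl M (cz Q) θ) a y = om p (cz D) (eBl M (cz D) θ) a y := by
  have haD : a ∈ nz D := ha.1
  have hyD : y ∈ nz D := hy.1
  intro n
  induction n with
  | zero =>
    intro Q hn hQ _ _ _
    have h1 : Q = D := Subgroup.eq_of_le_of_card_ge hQ (by omega)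
    rw [h1]
  | succ n ih =>
    intro Q hn hQ hRP haQ hyQ
    by_cases hQD : Q = D
    · rw [hQD]
    obtain ⟨Q', ⟨hQ1, hQ2, haQ', hyQ'⟩, hmin⟩ := WellFounded.has_min (wellFounded_lt (α := Subgroup G))
      {Q' : Subgroup G | Q < Q' ∧ Q' ≤ D ∧ a ∈ nz Q' ∧ y ∈ nz Q'} ⟨D, lt_of_le_of_ne hQ hQD, le_rfl, haD, hyD⟩
    have hcom : ∀ c ∈ Q', ∀ d ∈ Q', c * d = d * c := fun c hc d hd => hL.rt.com c (hQ2 hc) d (hQ2 hd)
    have hay' : ∀ q ∈ Q', (a * y) * q * (a * y)⁻¹ = (y * a) * q * (y * a)⁻¹ := by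
      intro q hq
      have h1 : (y * a) * q * (y * a)⁻¹ ∈ D := hQ2 (OQD_mem ((nz Q').mul_mem hyQ' haQ') hq)
      have h2 := Subgroup.mem_centralizer_iff.1 hay _ h1
      have h3 : (a * y) * q * (a * y)⁻¹ = (a * y * a⁻¹ * y⁻¹) * ((y * a) * q * (y * a)⁻¹) * (a * y * a⁻¹ * y⁻¹)⁻¹ := by
        group
      rw [h3, ← h2]
      group
    obtain ⟨s, t, i, j, h1, h2⟩ := OQD_step hCYV Q Q' hQ1.le hQ1.ne hcom a y haQ haQ' hyQ hyQ' hay' (by
      intro Q'' h1 h2 h3 h4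
      by_cases h5 : Q = Q''
      · exact Or.inl h5.symm
      · right
        by_contra h6
        exact hmin Q'' ⟨lt_of_le_of_ne h1 h5, h2.trans hQ2, h3, h4⟩ (lt_of_le_of_ne h2 h6))
    set g := a ^ s * y ^ t with hg
    have hgT : g ∈ TT M D θ := (TT M D θ).mul_mem ((TT M D θ).zpow_mem ha s) ((TT M D θ).zpow_mem hy t)
    have hgQ : g ∈ nz Q := (nz Q).mul_mem ((nz Q).zpow_mem haQ s) ((nz Q).zpow_mem hyQ t)
    have hgQ' : g ∈ nz Q' := (nz Q').mul_mem ((nz Q').zpow_mem haQ' s) ((nz Q').zpow_mem hyQ' t)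
    set k₁ := (g ^ i)⁻¹ * a with hk1
    set k₂ := (g ^ j)⁻¹ * y with hk2
    have hk1T : k₁ ∈ TT M D θ := (TT M D θ).mul_mem ((TT M D θ).inv_mem ((TT M D θ).zpow_mem hgT i)) ha
    have hk2T : k₂ ∈ TT M D θ := (TT M D θ).mul_mem ((TT M D θ).inv_mem ((TT M D θ).zpow_mem hgT j)) hy
    have hk1Q : k₁ ∈ nz Q := (nz Q).mul_mem ((nz Q).inv_mem ((nz Q).zpow_mem hgQ i)) haQ
    have hk2Q : k₂ ∈ nz Q := (nz Q).mul_mem ((nz Q).inv_mem ((nz Q).zpow_mem hgQ j)) hyQ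
    have hk1Q' : k₁ ∈ nz Q' := (nz Q').mul_mem ((nz Q').inv_mem ((nz Q').zpow_mem hgQ' i)) haQ'
    have hk2Q' : k₂ ∈ nz Q' := (nz Q').mul_mem ((nz Q').inv_mem ((nz Q').zpow_mem hgQ' j)) hyQ'
    let A : (nz D : Subgroup G) := ⟨a, haD⟩
    let Y : (nz D : Subgroup G) := ⟨y, hyD⟩
    have hc : Commute (D.normalizerMonoidHom A) (D.normalizerMonoidHom Y) := (OQD_com A Y).1 hay
    have hc1 : Commute (D.normalizerMonoidHom (A ^ s * Y ^ t)) (D.normalizerMonoidHom A) := by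
      rw [map_mul, map_zpow, map_zpow]
      exact ((Commute.refl _).zpow_left s).mul_left (hc.symm.zpow_left t)
    have hc2 : Commute (D.normalizerMonoidHom (A ^ s * Y ^ t)) (D.normalizerMonoidHom Y) := by
      rw [map_mul, map_zpow, map_zpow]
      exact (hc.zpow_left s).mul_left ((Commute.refl _).zpow_left t)
    have e3 : D.normalizerMonoidHom (((A ^ s * Y ^ t) ^ i)⁻¹ * A) =
        ((D.normalizerMonoidHom (A ^ s * Y ^ t)) ^ i)⁻¹ * D.normalizerMonoidHom A := by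
      rw [map_mul, map_inv, map_zpow]
    have e4 : D.normalizerMonoidHom (((A ^ s * Y ^ t) ^ j)⁻¹ * Y) =
        ((D.normalizerMonoidHom (A ^ s * Y ^ t)) ^ j)⁻¹ * D.normalizerMonoidHom Y := by
      rw [map_mul, map_inv, map_zpow]
    have hc3 : Commute (D.normalizerMonoidHom (A ^ s * Y ^ t)) (D.normalizerMonoidHom (((A ^ s * Y ^ t) ^ i)⁻¹ * A)) := by
      rw [e3]
      exact ((Commute.refl _).zpow_right i).inv_right.mul_right hc1
    have hc4 : Commute (D.normalizerMonoidHom (A ^ s * Y ^ t)) (D.normalizerMonoidHom (((A ^ s * Y ^ t) ^ j)⁻¹ * Y)) := by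
      rw [e4]
      exact ((Commute.refl _).zpow_right j).inv_right.mul_right hc2
    have hc5 : Commute (D.normalizerMonoidHom (((A ^ s * Y ^ t) ^ i)⁻¹ * A))
        (D.normalizerMonoidHom (((A ^ s * Y ^ t) ^ j)⁻¹ * Y)) := by
      have e1 : Commute (D.normalizerMonoidHom A) (D.normalizerMonoidHom (((A ^ s * Y ^ t) ^ j)⁻¹ * Y)) := by
        rw [e4]
        exact (hc1.symm.zpow_right j).inv_right.mul_right hc
      rw [e3]
      exact (hc4.zpow_left i).inv_left.mul_left e1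
    have key := hOQS p M hS hp G D x θ χ hL Q Q' hQ1.le hQ2 hRP g hgT k₁ hk1T k₂ hk2T
      ((OQD_com (A ^ s * Y ^ t) (((A ^ s * Y ^ t) ^ i)⁻¹ * A)).2 hc3)
      ((OQD_com (A ^ s * Y ^ t) (((A ^ s * Y ^ t) ^ j)⁻¹ * Y)).2 hc4)
      ((OQD_com (((A ^ s * Y ^ t) ^ i)⁻¹ * A) (((A ^ s * Y ^ t) ^ j)⁻¹ * Y)).2 hc5)
      ⟨hgQ, hgQ'⟩ ⟨hk1Q, hk1Q'⟩ ⟨hk2Q, hk2Q'⟩ h1 h2 i j
    have e1 : g ^ i * k₁ = a := by rw [hk1]; group
    have e2 : g ^ j * k₂ = y := by rw [hk2]; group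
    rw [e1, e2] at key
    rw [key]
    apply ih Q' _ hQ2 _ haQ' hyQ'
    · have h3 : Nat.card Q < Nat.card Q' := by
        have := Set.ncard_lt_ncard (SetLike.coe_ssubset_coe.2 hQ1) (Set.toFinite _)
        exact this
      omega
    · intro u hu hu'
      exact hRP u hu (Subgroup.centralizer_le (SetLike.coe_subset_coe.2 hQ1.le) hu')

theorem OQD (hOQS : OQS_stmt) (hCYV : CYV_stmt) (hNYT : NYT_stmt) : OQD_stmt := by
  intro p M hS hp G _ _ D x θ χ hL R hR hRP a ha haR y hy hyR hay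
  exact OQD_main hOQS hCYV p M hS hp G D x θ χ hL a ha y hy hay _ R le_rfl hR hRP haR hyR

end Pool.Agent.LE
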