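import Pool.Agent.helper83.LE.SpecB

/-!
# Project LE, row DEC: the bound for the number of functions
-/

set_option autoImplicit false

namespace Pool.Agent.LE

open Pool.Agent.helper58.DC Pool.Agent.DI Pool.Agent.GR Pool.Agent.OB Pool.Agent.DR Pool.Agent.FI Pool.Agent.FI3 Pool.Agent.FI4 Pool.Agent.FI4C

theorem DEC (hDBE : DBE_stmt) (hBIG : BIG_stmt) (hORB : ORB_stmt) (hDUA : DUA_stmt) : DEC_stmt := by
  intro p hp D _ _ hD X _ N n C g hn hC hv hi hb hnz hs
  obtain ⟨h1, h2⟩ := hDBE D X g n (Nat.cast_nonneg n) hb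
  have h3 : ∀ χ, ∃ l : D →* ℂˣ, 1 / 2 ≤ ‖fh (g χ) l‖ := fun χ =>
    hBIG D N n C (g χ) hn hC (hv χ) (h2 χ) (hi χ) (hnz χ)
  choose l hl using h3
  have h4 : ∀ χ, orderOf (l χ) ≤ 4 * p * n := fun χ =>
    hORB p hp D hD n (g χ) (hs χ) (h2 χ) (l χ) (hl χ)
  classical
  let f : X → {l : D →* ℂˣ // orderOf l ≤ 4 * p * n} := fun χ => ⟨l χ, h4 χ⟩
  have h5 := hDUA D (4 * p * n)
  have h6 : Nat.card {u : D // orderOf u ≤ 4 * p * n} ≠ 0 := by
    have h : Nonempty {u : D // orderOf u ≤ 4 * p * n} := by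
      refine ⟨⟨1, ?_⟩⟩
      rw [orderOf_one]
      have := Nat.mul_pos (Nat.mul_pos (by norm_num : 0 < 4) hp.pos) hn
      omega
    exact (Nat.card_pos).ne'
  have hfin : Finite {l : D →* ℂˣ // orderOf l ≤ 4 * p * n} := Nat.finite_of_card_ne_zero (by rw [h5]; exact h6)
  have : Fintype {l : D →* ℂˣ // orderOf l ≤ 4 * p * n} := Fintype.ofFinite _
  have h7 : Fintype.card X ≤ (4 * n) * (Finset.univ.image f).card := by
    rw [← Finset.card_univ]
    apply Finset.card_le_mul_card_image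
    intro a _
    have h8 : ∑ χ ∈ Finset.univ.filter (fun χ => f χ = a), (1 / 4 : ℝ) ≤ n := by
      calc ∑ χ ∈ Finset.univ.filter (fun χ => f χ = a), (1 / 4 : ℝ)
          ≤ ∑ χ ∈ Finset.univ.filter (fun χ => f χ = a), ‖fh (g χ) a.1‖ ^ 2 := by
            apply Finset.sum_le_sum
            intro χ hχ
            have h9 : l χ = a.1 := congrArg Subtype.val (Finset.mem_filter.1 hχ).2
            have h10 := hl χ
            rw [h9] at h10
            nlinarith
        _ ≤ ∑ χ, ‖fh (g χ) a.1‖ ^ 2 :=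
            Finset.sum_le_sum_of_subset_of_nonneg (Finset.filter_subset _ _) fun _ _ _ => by positivity
        _ ≤ n := h1 a.1
    rw [Finset.sum_const, nsmul_eq_mul] at h8
    have h9 : (((Finset.univ.filter (fun χ => f χ = a)).card : ℕ) : ℝ) ≤ ((4 * n : ℕ) : ℝ) := by
      push_cast
      linarith
    exact_mod_cast h9
  rw [← h5, Nat.card_eq_fintype_card]
  exact h7.trans (Nat.mul_le_mul_left _ (Finset.card_le_univ _))

end Pool.Agent.LE
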